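import Pool.Agent.H.MP_a68a03_ag.E

set_option autoImplicit false
open MvPolynomial

namespace Pool.Agent.Results.MP_a68a03_ag.DimType
open Pool.Agent.H.MP_a68a03_ag

/-- The dim-type of `V(F) ⊆ ℙ^m` over the field `L`, in the lexicographic order. The entry at `i : Fin m`
counts the irreducible components of codimension `i + 1`: minimal primes `P` of the ideal `(F)` whose
quotient (the coordinate ring of the affine cone) has Krull dimension `(m + 1) - (i + 1) = m - i`. -/
noncomputable def dimType {L : Type} [Field L] {m r : ℕ} (F : Fin r → MvPolynomial (Fin (m + 1)) L) :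
    Lex (Fin m → ℕ) :=
  toLex fun i => {P : Ideal (MvPolynomial (Fin (m + 1)) L) | P ∈ (Ideal.span (Set.range F)).minimalPrimes ∧
    ringKrullDim (MvPolynomial (Fin (m + 1)) L ⧸ P) = (m - i : ℕ)}.ncard

/-- `Λ(d,m)`: exponent vectors of the degree `d` monomials in `m + 1` variables. -/
noncomputable def Lam (d m : ℕ) : Finset (Fin (m + 1) →₀ ℕ) := Finset.univ.finsuppAntidiag d

/-- `ν` is the `r`-th element of `Λ(d,m)` in descending lexicographic order: exactly `r` elements of
`Λ(d,m)` are lexicographically at least `ν`. -/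
def IsNth (d m r : ℕ) (ν : Fin (m + 1) →₀ ℕ) : Prop :=
  ν ∈ Lam d m ∧ ((Lam d m).filter fun γ => toLex ν ≤ toLex γ).card = r

theorem result (k : Type) [Field k] [Fintype k] (L : Type) [Field L] [Algebra k L] (m d r : ℕ)
    (hq : d < Fintype.card k) (ν : Fin (m + 1) →₀ ℕ) (hν : IsNth d m r ν) :
    IsGreatest {α | ∃ F : Fin r → MvPolynomial (Fin (m + 1)) k, (∀ i, (F i).IsHomogeneous d) ∧
      LinearIndependent k F ∧ α = dimType fun i => map (algebraMap k L) (F i)}
      (toLex fun i : Fin m => ν i.castSucc) := by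
  classical
  obtain ⟨h1, h2⟩ := hν
  have hm : ∀ γ, γ ∈ Lam d m ↔ ∑ i, γ i = d := fun γ => by simp [Lam]
  constructor
  · obtain ⟨f⟩ := Function.Embedding.nonempty_of_card_le (α := Fin (d + 1)) (β := k) (by simpa using hq)
    let a : ℕ → k := fun i => if h : i < d + 1 then f ⟨i, h⟩ else 0
    have ha : ∀ i ≤ d, ∀ j ≤ d, a i = a j → i = j := fun i hi j hj h => by
      simp only [a, dif_pos (Nat.lt_succ_of_le hi), dif_pos (Nat.lt_succ_of_le hj)] at h
      simpa using f.injective h
    let e := (Finset.equivFinOfCardEq h2).symm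
    have he : ∀ t, ∑ i, (e t).1 i = d := fun t => (hm _).mp (Finset.mem_filter.mp (e t).2).1
    have hge : ∀ γ, toLex ν ≤ toLex γ ↔ ge ν γ := fun γ => by
      rw [le_iff_eq_or_lt, Finsupp.Lex.lt_iff, toLex_inj, eq_comm]; rfl
    refine ⟨fun t => FF a (e t), fun t => by simpa only [he t] using FF_hom a (e t).1,
      FF_li a ha _ (Subtype.val_injective.comp e.injective) he, congrArg toLex (funext fun i => ?_)⟩
    simp only [FF_map]
    exact (comps_eq _ ν (fun i hi j hj h => ha i hi j hj ((algebraMap k L).injective h)) ((hm _).mp h1)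
      (fun t => (e t).1) (fun t => (hge _).mp (Finset.mem_filter.mp (e t).2).2)
      (fun γ h3 h4 => ⟨e.symm ⟨γ, Finset.mem_filter.mpr ⟨(hm _).mpr h3, (hge _).mpr h4⟩⟩, by simp⟩) i).symm
  · rintro _ ⟨F, h3, h4, rfl⟩
    refine not_lt.mp ?_
    rintro ⟨i, h5, h6⟩
    let β : Fin m → ℕ := fun j => if j < i then ν j.castSucc else if j = i then ν j.castSucc + 1 else 0
    have h7 := ubL _ (fun t => (h3 t).map (algebraMap k L)) (li_map h4) β fun j => by
      simp only [β]
      split_ifs with h h'
      · exact (h5 j h).le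
      · subst h'; exact h6
      · exact Nat.zero_le _
    have h8 : (insert ν ((Lam d m).filter fun γ => ¬ toLex ν ≤ toLex γ)).card ≤ CC β d := by
      refine Finset.card_le_card fun γ hγ => ?_
      have hi : ∀ γ : Fin (m + 1) →₀ ℕ, (∀ j ≤ i, γ j.castSucc = ν j.castSucc) → lt β γ := fun γ h =>
        ⟨i, fun j hj => by simp [β, hj, h j hj.le], by simp [β, h i le_rfl]⟩
      rcases Finset.mem_insert.mp hγ with rfl | hγ
      · exact Finset.mem_filter.mpr ⟨h1, hi _ fun _ _ => rfl⟩
      obtain ⟨h9, h10⟩ := Finset.mem_filter.mp hγ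
      obtain ⟨l, h11, h12⟩ := Finsupp.Lex.lt_iff.mp (not_le.mp h10)
      refine Finset.mem_filter.mpr ⟨h9, ?_⟩
      rcases lt_or_ge i.castSucc l with h | h
      · exact hi γ fun j hj => h11 _ ((Fin.castSucc_le_castSucc_iff.mpr hj).trans_lt h)
      · obtain ⟨l, rfl⟩ := Fin.exists_castSucc_eq.mpr (h.trans_lt (Fin.castSucc_lt_last i)).ne
        have hl : l ≤ i := by simpa using h
        refine ⟨l, fun j hj => ?_, ?_⟩
        · simp only [β, if_pos (hj.trans_le hl)]
          exact h11 _ (by simpa using hj)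
        · have : γ l.castSucc < ν l.castSucc := h12
          rcases hl.lt_or_eq with h' | rfl
          · simpa [β, h'] using this
          · simp [β]; omega
    rw [Finset.card_insert_of_notMem (by simp)] at h8
    have h9 := Finset.card_filter_add_card_filter_not (s := Lam d m) (fun γ => toLex ν ≤ toLex γ)
    rw [h2] at h9
    change _ ≤ (Lam d m).card at h7
    omega

end Pool.Agent.Results.MP_a68a03_ag.DimType
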